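import Pool.Agent.TH279.GR.Defs

/-!
# GR-G1: existence of prime filtrations (helper150 for helper279)
-/

set_option autoImplicit false

open MvPolynomial Module

namespace Pool.Agent.TH150.GRG1

open Pool.Agent.TH279.GR

variable {a b : ℕ}

/-- the bidegrees with the lexicographic order -/
def wl (a b : ℕ) : Ix a b → ℕ ×ₗ ℕ := fun i => toLex (wt a b i)

theorem weight_wl (d : Ix a b →₀ ℕ) :
    Finsupp.weight (wl a b) d = toLex (Finsupp.weight (wt a b) d) := by
  rfl

theorem comp_wl (m : ℕ × ℕ) (f : Co a b) :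
    weightedHomogeneousComponent (wl a b) (toLex m) f = weightedHomogeneousComponent (wt a b) m f := by
  classical
  ext d
  rw [coeff_weightedHomogeneousComponent, coeff_weightedHomogeneousComponent, weight_wl]
  exact if_congr (toLex.injective.eq_iff) rfl rfl

theorem mem_wl {x : Co a b} {c e : ℕ} :
    x ∈ weightedHomogeneousSubmodule ℂ (wl a b) (toLex (c, e)) ↔ x ∈ bh a b c e := by
  unfold bh
  rw [mem_weightedHomogeneousSubmodule, mem_weightedHomogeneousSubmodule]
  unfold IsWeightedHomogeneous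
  refine forall_congr' fun d => forall_congr' fun _ => ?_
  rw [weight_wl]
  exact toLex.injective.eq_iff

attribute [local instance] MvPolynomial.weightedGradedAlgebra

theorem dec_apply (m : ℕ × ℕ) (f : Co a b) :
    ((DirectSum.decompose (weightedHomogeneousSubmodule ℂ (wl a b)) f (toLex m)) : Co a b) =
      weightedHomogeneousComponent (wt a b) m f := by
  rw [← comp_wl]
  exact MvPolynomial.decompose'_apply ℂ (wl a b) f (toLex m)

theorem bhom_iff (I : Ideal (Co a b)) :
    BHom I ↔ I.IsHomogeneous (weightedHomogeneousSubmodule ℂ (wl a b)) := by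
  constructor
  · intro h i f hf
    have := h f hf (ofLex i)
    rw [← dec_apply] at this
    exact this
  · intro h f hf m
    rw [← dec_apply]
    exact h (toLex m) hf

theorem hom_of_bh {x : Co a b} {c e : ℕ} (hx : x ∈ bh a b c e) :
    SetLike.IsHomogeneousElem (weightedHomogeneousSubmodule ℂ (wl a b)) x :=
  ⟨toLex (c, e), mem_wl.2 hx⟩

theorem bh_of_hom {x : Co a b}
    (hx : SetLike.IsHomogeneousElem (weightedHomogeneousSubmodule ℂ (wl a b)) x) :
    ∃ c e : ℕ, x ∈ bh a b c e := by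
  obtain ⟨i, hi⟩ := hx
  exact ⟨(ofLex i).1, (ofLex i).2, mem_wl.1 hi⟩

theorem bhom_sup {I J : Ideal (Co a b)} (hI : BHom I) (hJ : BHom J) : BHom (I ⊔ J) := by
  rw [bhom_iff] at *
  exact hI.sup hJ

theorem bhom_span {x : Co a b} {c e : ℕ} (hx : x ∈ bh a b c e) : BHom (Ideal.span {x}) := by
  rw [bhom_iff]
  refine Ideal.homogeneous_span _ _ ?_
  rintro y (rfl : y = x)
  exact hom_of_bh hx

theorem comp_mul {x : Co a b} {c e : ℕ} (hx : x ∈ bh a b c e) (f : Co a b) (m : ℕ × ℕ) :
    weightedHomogeneousComponent (wt a b) ((c, e) + m) (x * f) =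
      x * weightedHomogeneousComponent (wt a b) m f := by
  rw [← dec_apply, ← dec_apply]
  exact DirectSum.coe_decompose_mul_add_of_left_mem (ι := ℕ ×ₗ ℕ)
    (weightedHomogeneousSubmodule ℂ (wl a b)) (i := toLex (c, e)) (j := toLex m) (mem_wl.2 hx)

theorem bhom_col {N : Ideal (Co a b)} (hN : BHom N) {x : Co a b} {c e : ℕ}
    (hx : x ∈ bh a b c e) : BHom (col N x) := by
  intro f hf m
  rw [mem_col] at hf ⊢
  rw [← comp_mul hx]
  exact hN _ hf _

theorem bh_mul' {u v u' v' : ℕ} {f g : Co a b} (hf : f ∈ bh a b u v) (hg : g ∈ bh a b u' v') :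
    f * g ∈ bh a b (u + u') (v + v') := by
  unfold bh at *
  rw [mem_weightedHomogeneousSubmodule] at *
  exact hf.mul hg

/-- a bihomogeneous ideal with the prime property for bihomogeneous elements is prime -/
theorem prime_of {Q : Ideal (Co a b)} (hQ : BHom Q) (hne : Q ≠ ⊤)
    (h : ∀ (f g : Co a b) (c e c' e' : ℕ), f ∈ bh a b c e → g ∈ bh a b c' e' → f * g ∈ Q →
      f ∈ Q ∨ g ∈ Q) : Q.IsPrime := by
  refine Ideal.IsHomogeneous.isPrime_of_homogeneous_mem_or_mem
    (𝒜 := weightedHomogeneousSubmodule ℂ (wl a b)) ((bhom_iff Q).1 hQ) hne ?_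
  intro f g hf hg hfg
  obtain ⟨c, e, hf'⟩ := bh_of_hom hf
  obtain ⟨c', e', hg'⟩ := bh_of_hom hg
  exact h f g c e c' e' hf' hg' hfg

/-- a bihomogeneous element in `N` and not in `N'` -/
theorem exists_form {N' N : Ideal (Co a b)} (h : BHom N) (hlt : N' < N) :
    ∃ (x : Co a b) (c e : ℕ), x ∈ bh a b c e ∧ x ∈ N ∧ x ∉ N' := by
  obtain ⟨f, hfN, hfN'⟩ := Set.exists_of_ssubset hlt
  by_contra hcon
  push Not at hcon
  apply hfN'
  have h1 : ∀ m, weightedHomogeneousComponent (wt a b) m f ∈ N' := fun m =>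
    hcon _ m.1 m.2 (weightedHomogeneousComponent_mem (wt a b) f m) (h f hfN m)
  change f ∈ N'
  rw [← sum_weightedHomogeneousComponent (wt a b) f]
  exact finsum_induction (fun g => g ∈ N') N'.zero_mem (fun _ _ => N'.add_mem) h1

end Pool.Agent.TH150.GRG1

namespace Pool.Agent.TH279.GR.G1

open Pool.Agent.TH279.GR Pool.Agent.TH150.GRG1

variable {a b : ℕ}

theorem step_exists {N' N : Ideal (Co a b)} (h' : BHom N') (h : BHom N) (hlt : N' < N) :
    ∃ (x : Co a b) (c e : ℕ), x ∈ N ∧ x ∉ N' ∧ x ∈ bh a b c e ∧ (col N' x).IsPrime := by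
  classical
  -- the set of ideals `(N' : x)`
  let S : Set (Ideal (Co a b)) :=
    {Q | ∃ (x : Co a b) (c e : ℕ), x ∈ bh a b c e ∧ x ∈ N ∧ x ∉ N' ∧ Q = col N' x}
  have hS : S.Nonempty := by
    obtain ⟨x, c, e, h1, h2, h3⟩ := exists_form h hlt
    exact ⟨_, x, c, e, h1, h2, h3, rfl⟩
  obtain ⟨Q, ⟨x, c, e, h1, h2, h3, rfl⟩, hmax⟩ := set_has_maximal_iff_noetherian.2
    (inferInstance : IsNoetherian (Co a b) (Co a b)) S hS
  refine ⟨x, c, e, h2, h3, h1, prime_of (bhom_col h' h1) ?_ ?_⟩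
  · intro htop
    apply h3
    have : (1 : Co a b) ∈ col N' x := by rw [htop]; trivial
    rw [mem_col, mul_one] at this
    exact this
  · intro f g cf ef cg eg hf hg hfg
    by_contra hcon
    push Not at hcon
    obtain ⟨hfn, hgn⟩ := hcon
    rw [mem_col] at hfn hfg
    have hxf : col N' (x * f) ∈ S :=
      ⟨x * f, c + cf, e + ef, bh_mul' h1 hf, N.mul_mem_right _ h2, hfn, rfl⟩
    have hle : col N' x ≤ col N' (x * f) := by
      intro z hz
      rw [mem_col] at hz ⊢
      have e1 : x * f * z = f * (x * z) := by ring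
      rw [e1]
      exact N'.mul_mem_left _ hz
    have hgm : g ∈ col N' (x * f) := by
      rw [mem_col, mul_assoc]
      exact hfg
    exact hmax _ hxf (lt_of_le_of_ne hle fun heq => hgn (by rw [heq]; exact hgm))

theorem chain_exists {N' N : Ideal (Co a b)} (h' : BHom N') (h : BHom N) (hle : N' ≤ N) :
    ∃ l, Chain N' N l ∧ ∀ t ∈ l, t.1.IsPrime ∧ BHom t.1 ∧ N' ≤ t.1 := by
  classical
  have hwf : WellFounded ((· > ·) : Ideal (Co a b) → Ideal (Co a b) → Prop) :=
    IsWellFounded.wf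
  induction N' using hwf.induction with
  | _ N' ih =>
    rcases eq_or_lt_of_le hle with heq | hlt
    · subst heq
      exact ⟨[], Chain.nil _ h', fun t ht => by simp at ht⟩
    · obtain ⟨x, c, e, hxN, hxN', hx, hpr⟩ := step_exists h' h hlt
      have h'' : BHom (N' ⊔ Ideal.span {x}) := bhom_sup h' (bhom_span hx)
      have hle'' : N' ⊔ Ideal.span {x} ≤ N :=
        sup_le hle ((Ideal.span_singleton_le_iff_mem N).2 hxN)
      have hgt : N' ⊔ Ideal.span {x} > N' := by
        refine lt_of_le_of_ne le_sup_left fun heq => hxN' ?_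
        rw [heq]
        exact Ideal.mem_sup_right (Ideal.mem_span_singleton_self x)
      obtain ⟨l, hl, hl'⟩ := ih _ hgt h'' hle''
      refine ⟨(col N' x, c, e) :: l, Chain.cons ⟨h', hx, rfl, hpr⟩ hl, ?_⟩
      intro t ht
      rcases List.mem_cons.1 ht with rfl | ht
      · refine ⟨hpr, bhom_col h' hx, ?_⟩
        intro z hz
        exact N'.mul_mem_left _ hz
      · obtain ⟨h1, h2, h3⟩ := hl' t ht
        exact ⟨h1, h2, le_trans le_sup_left h3⟩

end Pool.Agent.TH279.GR.G1
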